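import Mathlib

/-!
Definitions for MP_de7343_al: pro-p groups, free pro-p groups, cohomological dimension
(with the continuous cohomology of Mathlib).
-/

namespace Pool.Agent.MP_de7343_al

universe u

/-- A pro-`p` group: a compact Hausdorff totally disconnected topological group all of whose
quotients by normal subgroups that are topologically clopen are `p`-groups. -/
structure IsProP (p : ℕ) (G : Type u) [Group G] [TopologicalSpace G] : Prop where
  topGroup : IsTopologicalGroup G
  compact : CompactSpace G
  t2 : T2Space G
  totDisc : TotallyDisconnectedSpace G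
  pgroup : ∀ U : OpenNormalSubgroup G, IsPGroup p (G ⧸ U.toSubgroup)

/-- A family `f : X → G` converges to `1`: each `U : OpenSubgroup G` contains all but finitely many
of the `f x`. -/
def ConvergesToOne {X G : Type u} [Group G] [TopologicalSpace G] (f : X → G) : Prop :=
  ∀ U : OpenSubgroup G, {x : X | f x ∉ U}.Finite

/-- `F` is a free pro-`p` group (of arbitrary rank): it is a pro-`p` group with a basis
`ι : X → F` converging to `1`, i.e. every map from `X` to a pro-`p` group `H` converging to `1`
extends uniquely to a continuous homomorphism `F → H`. -/
def IsFreeProP (p : ℕ) (F : Type u) [Group F] [TopologicalSpace F] : Prop :=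
  IsProP p F ∧ ∃ (X : Type u) (ι : X → F), ConvergesToOne ι ∧
    ∀ (H : Type u) [Group H] [TopologicalSpace H], IsProP p H →
      ∀ f : X → H, ConvergesToOne f → ∃! φ : F →ₜ* H, ∀ x, φ (ι x) = f x

/-- `(r)`: the closed normal subgroup generated by `r`, i.e. the topological closure of the normal
closure of `{r}`. -/
def closedNormalClosure {F : Type u} [Group F] [TopologicalSpace F] [IsTopologicalGroup F]
    (r : F) : Subgroup F :=
  (Subgroup.normalClosure {r}).topologicalClosure

instance closedNormalClosure_normal {F : Type u} [Group F] [TopologicalSpace F]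
    [IsTopologicalGroup F] (r : F) : (closedNormalClosure r).Normal :=
  Subgroup.is_normal_topologicalClosure _

/-- `A` is a discrete `p`-primary torsion `G`-module: discrete topology, every element killed by
a power of `p`, and the action of `G` is continuous. -/
def IsDiscretePTorsion (p : ℕ) {G : Type u} [Group G] [TopologicalSpace G]
    (A : TopRep.{u} ℤ G) : Prop :=
  DiscreteTopology A ∧ (∀ a : A, ∃ k : ℕ, p ^ k • a = 0) ∧
    Continuous (fun x : G × A => A.ρ x.1 x.2)

/-- The cohomological dimension: the supremum (in `ℕ∞`) of the `n` such that the continuous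
cohomology `Hⁿ(G, A)` is nonzero for some discrete `p`-primary torsion `G`-module `A`. -/
noncomputable def cd (p : ℕ) (G : Type u) [Group G] [TopologicalSpace G] [IsTopologicalGroup G] :
    ℕ∞ :=
  sSup {m : ℕ∞ | ∃ n : ℕ, m = n ∧ ∃ A : TopRep.{u} ℤ G, IsDiscretePTorsion p A ∧
    Nontrivial (continuousCohomology n A)}

end Pool.Agent.MP_de7343_al
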